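import Pool.Agent.N866.ND.NB

/-!
Project ND (helper299), task CPC (helper866): compositions of the block maps are completely positive.
-/

set_option autoImplicit false

open scoped BoundedContinuousFunction Topology Matrix.Norms.L2Operator ComplexOrder
open Filter

noncomputable section

namespace Pool.Agent.N866.ND

open Pool.Agent.N299 Pool.Agent.N299.DT Pool.Agent.N299.ND

/-- the Gram type matrix of the values -/
def Gm {n r : ℕ} (y : Fin r → Fin r → M n) : Matrix (Fin r × Fin (n + 1)) (Fin r × Fin (n + 1)) ℂ :=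
  Matrix.of fun p q => y p.1 q.1 p.2 q.2

theorem Gm_quad {n r : ℕ} (y : Fin r → Fin r → M n) (w : Fin r × Fin (n + 1) → ℂ) :
    star w ⬝ᵥ (Gm y).mulVec w = (∑ i, ∑ j, star (colm fun k => w (i, k)) * y i j * colm fun k => w (j, k)) 0 0 := by
  have e : ∀ i j, (star (colm fun k => w (i, k)) * y i j * colm fun k => w (j, k)) 0 0 =
      ∑ k, ∑ l, star (w (i, k)) * (y i j k l * w (j, l)) := by
    intro i j
    rw [Matrix.mul_assoc, Matrix.mul_apply]
    refine Finset.sum_congr rfl fun k _ => ?_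
    rw [Matrix.star_apply, Matrix.mul_apply, Finset.mul_sum]
    simp [colm]
  simp only [Matrix.sum_apply, e]
  simp only [dotProduct, Matrix.mulVec, Pi.star_apply, Gm, Matrix.of_apply, Fintype.sum_prod_type, Finset.mul_sum]
  refine Finset.sum_congr rfl fun i _ => ?_
  rw [Finset.sum_comm]

theorem pos_entry {n : ℕ} {x : M n} (h : Pos x) : 0 ≤ x 0 0 := by
  obtain ⟨y, rfl⟩ := h
  rw [Matrix.mul_apply]
  refine Finset.sum_nonneg fun k _ => ?_
  rw [Matrix.star_apply, RCLike.star_def, Complex.conj_mul']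
  exact_mod_cast (sq_nonneg ‖y k 0‖ : (0 : ℝ) ≤ _)

theorem Gm_psd {n r : ℕ} (y : Fin r → Fin r → M n)
    (hy : ∀ b : Fin r → M n, Pos (∑ i, ∑ j, star (b i) * y i j * b j)) : (Gm y).PosSemidef := by
  have h0 : ∀ w, 0 ≤ star w ⬝ᵥ (Gm y).mulVec w := by
    intro w
    rw [Gm_quad]
    exact pos_entry (hy fun i => colm fun k => w (i, k))
  refine Matrix.PosSemidef.of_dotProduct_mulVec_nonneg ?_ h0
  rw [← Matrix.isSymmetric_toEuclideanLin_iff, LinearMap.isSymmetric_iff_inner_map_self_real]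
  intro v
  have h1 := h0 v.ofLp
  have h2 : inner ℂ (Matrix.toEuclideanLin (Gm y) v) v = star (star v.ofLp ⬝ᵥ (Gm y).mulVec v.ofLp) := by
    rw [EuclideanSpace.inner_eq_star_dotProduct]
    change v.ofLp ⬝ᵥ star ((Gm y).mulVec v.ofLp) = _
    rw [dotProduct_comm, Matrix.star_dotProduct]
  rw [h2]
  have h3 : (star v.ofLp ⬝ᵥ (Gm y).mulVec v.ofLp).im = 0 := (Complex.nonneg_iff.1 h1).2.symm
  rw [RCLike.star_def, Complex.conj_conj]
  exact (Complex.conj_eq_iff_im.2 h3).symm

theorem gram {ι : Type} [Fintype ι] [DecidableEq ι] {G : Matrix ι ι ℂ} (h : G.PosSemidef) :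
    ∃ N : Matrix ι ι ℂ, G = N.conjTranspose * N := by
  open scoped MatrixOrder in
  have h1 : 0 ≤ G := Matrix.nonneg_iff_posSemidef.2 h
  open scoped MatrixOrder in
  obtain ⟨N, hN⟩ := CStarAlgebra.nonneg_iff_eq_star_mul_self.1 h1
  exact ⟨N, hN⟩

theorem t_CPC : S_CPC := by
  intro B _ I n ψ φ h r a b ha
  have h1 := Gm_psd (fun i j => ψ (star (a i) * a j)) (fun c => h.ψcp r a c ha)
  obtain ⟨N, hN⟩ := gram h1
  set Nb : Fin r → Fin r → M n := fun c i => Matrix.of fun m l => N (c, m) (i, l) with hNb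
  have h2 : ∀ i j, ψ (star (a i) * a j) = ∑ c, star (Nb c i) * Nb c j := by
    intro i j
    ext k l
    have h3 : ψ (star (a i) * a j) k l = Gm (fun i j => ψ (star (a i) * a j)) (i, k) (j, l) := rfl
    rw [h3, hN, Matrix.mul_apply, Matrix.sum_apply, Fintype.sum_prod_type]
    refine Finset.sum_congr rfl fun c _ => ?_
    rw [Matrix.mul_apply]
    rfl
  have h3 : ∑ i, ∑ j, star (b i) * (φ ∘ₗ ψ) (star (a i) * a j) * b j =
      ∑ c, ∑ i, ∑ j, star (b i) * φ (star (Nb c i) * Nb c j) * b j := by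
    simp only [LinearMap.comp_apply, h2, map_sum, Finset.mul_sum, Finset.sum_mul]
    exact (Finset.sum_congr rfl fun x _ => Finset.sum_comm).trans Finset.sum_comm
  rw [h3]
  exact Pos.sum _ _ fun c _ => h.φcp r (Nb c) b

end Pool.Agent.N866.ND
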