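import Pool.Agent.N299.ND.Stm

/-!
Project ND (helper299), task NB (helper866): lower norm bound for order zero maps on matrices.
-/

set_option autoImplicit false

open scoped BoundedContinuousFunction Topology Matrix.Norms.L2Operator
open Filter

noncomputable section

namespace Pool.Agent.N866.ND

open Pool.Agent.N299 Pool.Agent.N299.DT Pool.Agent.N299.ND

/-- the matrix with first column `v` -/
def colm {n : ℕ} (v : Fin (n + 1) → ℂ) : M n := Matrix.of fun i j => if j = 0 then v i else 0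

theorem mul_colm {n : ℕ} (x : M n) (v : Fin (n + 1) → ℂ) : x * colm v = colm (x.mulVec v) := by
  ext i j
  rw [Matrix.mul_apply]
  simp only [colm, Matrix.of_apply, Matrix.mulVec, dotProduct]
  split_ifs with h
  · rfl
  · simp

theorem star_colm_mul {n : ℕ} (v : Fin (n + 1) → ℂ) :
    star (colm v) * colm v = (((∑ i, ‖v i‖ ^ 2 : ℝ)) : ℂ) • (mu 0 0 : M n) := by
  ext i j
  rw [Matrix.mul_apply, Matrix.smul_apply]
  simp only [colm, Matrix.star_apply, Matrix.of_apply, mu, Matrix.single_apply]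
  by_cases hi : i = 0
  · by_cases hj : j = 0
    · subst hi hj
      simp only [if_true, and_self, smul_eq_mul, mul_one]
      push_cast
      refine Finset.sum_congr rfl fun k _ => ?_
      rw [RCLike.star_def, Complex.conj_mul']
    · simp [hj, Ne.symm hj]
  · simp [hi, Ne.symm hi]

theorem mu_mul {n : ℕ} (i j k : Fin (n + 1)) : (mu i j : M n) * mu j k = mu i k := by
  unfold mu
  rw [Matrix.single_mul_single_same, mul_one]

theorem star_mu {n : ℕ} (i j : Fin (n + 1)) : star (mu i j : M n) = mu j i := by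
  unfold mu
  rw [Matrix.star_eq_conjTranspose, Matrix.conjTranspose_single, star_one]

theorem sum_mu {n : ℕ} : ∑ i : Fin (n + 1), (mu i i : M n) = 1 := by
  unfold mu
  ext i j
  rw [Matrix.sum_apply]
  simp only [Matrix.single_apply, Matrix.one_apply]
  by_cases h : i = j
  · subst h
    simp
  · rw [if_neg h]
    refine Finset.sum_eq_zero fun k _ => ?_
    rw [if_neg]
    rintro ⟨rfl, rfl⟩
    exact h rfl

theorem norm_mu_le {n : ℕ} : ‖(mu 0 0 : M n)‖ ≤ 1 := by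
  have h1 : ‖star (mu 0 0 : M n) * mu 0 0‖ = ‖(mu 0 0 : M n)‖ * ‖(mu 0 0 : M n)‖ := CStarRing.norm_star_mul_self
  rw [star_mu, mu_mul] at h1
  by_contra h
  push Not at h
  nlinarith

/-- comparison from powers of two -/
theorem le_of_pow {a b C : ℝ} (ha : 0 ≤ a) (h : ∀ k : ℕ, b ^ 2 ^ k ≤ C * a ^ 2 ^ k) (hb : 0 ≤ b) : b ≤ a := by
  by_contra hab
  push Not at hab
  have hb0 : 0 < b := lt_of_le_of_lt ha hab
  have hr : a / b < 1 := by rwa [div_lt_one hb0]
  have hr0 : 0 ≤ a / b := div_nonneg ha hb0.le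
  have h1 : Tendsto (fun k : ℕ => C * (a / b) ^ 2 ^ k) atTop (𝓝 (C * 0)) := by
    apply Tendsto.const_mul
    exact (tendsto_pow_atTop_nhds_zero_of_lt_one hr0 hr).comp (tendsto_pow_atTop_atTop_of_one_lt (by norm_num))
  rw [mul_zero] at h1
  obtain ⟨k, hk⟩ := (h1.eventually (gt_mem_nhds one_pos)).exists
  have h2 := h k
  have hbk : 0 < b ^ 2 ^ k := by positivity
  rw [div_pow, ← mul_div_assoc, div_lt_one hbk] at hk
  linarith

variable {n : ℕ} {B : Type} [CStarAlgebra B] {φ : M n →ₗ[ℂ] B}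

theorem pow_proj (h : OZ φ) {e : M n} (he : e * e = e) (k : ℕ) : φ e ^ (k + 1) = φ 1 ^ k * φ e := by
  induction k with
  | zero => simp
  | succ k ih => rw [pow_succ, ih, mul_assoc, h.mul, he, ← mul_assoc, ← pow_succ]

theorem norm_diag (h : OZ φ) (i : Fin (n + 1)) : ‖φ (mu i i)‖ = ‖φ (mu 0 0)‖ := by
  have hs : ∀ i : Fin (n + 1), ‖φ (mu i i)‖ * ‖φ (mu i i)‖ = ‖φ 1 * φ (mu i i)‖ := by
    intro i
    rw [← CStarRing.norm_star_mul_self, ← h.st, star_mu, h.mul (mu i i) (mu i i), mu_mul]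
  have h1 : ‖φ 1 * φ (mu i i)‖ = ‖φ (mu i 0)‖ * ‖φ (mu i 0)‖ := by
    rw [← CStarRing.norm_self_mul_star, ← h.st, star_mu, h.mul (mu i 0) (mu 0 i), mu_mul]
  have h2 : ‖φ 1 * φ (mu 0 0)‖ = ‖φ (mu i 0)‖ * ‖φ (mu i 0)‖ := by
    rw [← CStarRing.norm_star_mul_self, ← h.st, star_mu, h.mul (mu 0 i) (mu i 0), mu_mul]
  have h3 : ‖φ (mu i i)‖ * ‖φ (mu i i)‖ = ‖φ (mu 0 0)‖ * ‖φ (mu 0 0)‖ := by
    rw [hs, hs, h1, h2]
  exact (mul_self_inj (norm_nonneg _) (norm_nonneg _)).1 h3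

theorem one_le_diag (h : OZ φ) : ‖φ 1‖ ≤ ‖φ (mu 0 0)‖ := by
  apply le_of_pow (C := (n : ℝ) + 1) (norm_nonneg _) _ (norm_nonneg _)
  intro k
  have hsa : IsSelfAdjoint (φ 1) := by
    rw [IsSelfAdjoint, ← h.st, star_one]
  rw [← hsa.norm_pow_two_pow k]
  obtain ⟨m, hm⟩ : ∃ m, 2 ^ k = m + 1 := ⟨2 ^ k - 1, by have := Nat.one_le_two_pow (n := k); omega⟩
  rw [hm]
  have h1 : φ 1 ^ (m + 1) = ∑ i : Fin (n + 1), φ (mu i i) ^ (m + 1) := by
    have h2 : ∀ i : Fin (n + 1), φ (mu i i) ^ (m + 1) = φ 1 ^ m * φ (mu i i) := fun i =>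
      pow_proj h (mu_mul i i i) m
    simp_rw [h2]
    rw [← Finset.mul_sum, ← map_sum, sum_mu, pow_succ]
  rw [h1]
  refine (norm_sum_le _ _).trans ?_
  calc ∑ i : Fin (n + 1), ‖φ (mu i i) ^ (m + 1)‖ ≤ ∑ i : Fin (n + 1), ‖φ (mu 0 0)‖ ^ (m + 1) := by
        refine Finset.sum_le_sum fun i _ => ?_
        refine (norm_pow_le' _ (Nat.succ_pos m)).trans ?_
        rw [norm_diag h]
    _ = ((n : ℝ) + 1) * ‖φ (mu 0 0)‖ ^ (m + 1) := by
        rw [Finset.sum_const, Finset.card_univ, Fintype.card_fin, nsmul_eq_mul]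
        push_cast
        ring

theorem nb_aux (h : OZ φ) (x : M n) (v : Fin (n + 1) → ℂ) (hv : ∑ i, ‖v i‖ ^ 2 ≤ 1) :
    Real.sqrt (∑ i, ‖x.mulVec v i‖ ^ 2) * ‖φ (mu 0 0)‖ ^ 4 ≤ ‖φ 1 * φ x‖ := by
  set s : ℝ := ∑ i, ‖x.mulVec v i‖ ^ 2 with hs
  have hs0 : 0 ≤ s := Finset.sum_nonneg fun _ _ => by positivity
  have hY : ‖colm v‖ ≤ 1 := by
    have h1 : ‖star (colm v) * colm v‖ = ‖colm v‖ * ‖colm v‖ := CStarRing.norm_star_mul_self
    rw [star_colm_mul, norm_smul, Complex.norm_real,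
      Real.norm_of_nonneg (Finset.sum_nonneg fun _ _ => by positivity)] at h1
    have h2 : ‖colm v‖ * ‖colm v‖ ≤ 1 := by
      rw [← h1]
      calc _ ≤ (1 : ℝ) * 1 := mul_le_mul hv norm_mu_le (norm_nonneg _) zero_le_one
        _ = 1 := one_mul 1
    by_contra h3
    push Not at h3
    nlinarith
  have hone : ‖φ 1‖ ≤ 1 := (h.norm 1).trans (le_of_eq (by
    rw [CStarRing.norm_one]))
  set Z : B := φ 1 * φ x * φ (colm v) * φ 1 with hZ
  have e1 : star Z * Z = ((s : ℝ) : ℂ) • φ (mu 0 0) ^ 2 ^ 3 := by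
    have c1 : ∀ y, φ 1 * φ y = φ y * φ 1 := h.comm
    have e2 : φ (star (colm v)) * φ (star x) * (φ x * φ (colm v)) =
        φ 1 ^ 3 * (((s : ℝ) : ℂ) • φ (mu 0 0)) := by
      have e3 : star (colm v) * star x * (x * colm v) = ((s : ℝ) : ℂ) • (mu 0 0 : M n) := by
        rw [← star_mul, mul_colm, star_colm_mul]
      rw [h.mul (star (colm v)) (star x), h.mul x (colm v)]
      have : φ 1 * φ (star (colm v) * star x) * (φ 1 * φ (x * colm v)) =
          φ 1 * φ 1 * (φ (star (colm v) * star x) * φ (x * colm v)) := by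
        calc φ 1 * φ (star (colm v) * star x) * (φ 1 * φ (x * colm v)) =
            φ 1 * (φ (star (colm v) * star x) * φ 1) * φ (x * colm v) := by simp only [mul_assoc]
          _ = φ 1 * (φ 1 * φ (star (colm v) * star x)) * φ (x * colm v) := by
              rw [c1 (star (colm v) * star x)]
          _ = _ := by simp only [mul_assoc]
      rw [this, h.mul (star (colm v) * star x) (x * colm v), e3, map_smul]
      simp only [pow_succ, pow_zero, one_mul, mul_assoc]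
    have e4 : star Z * Z = φ 1 ^ 4 * (φ (star (colm v)) * φ (star x) * (φ x * φ (colm v))) := by
      have hst1 : star (φ 1) = φ 1 := by rw [← h.st, star_one]
      have hZ' : Z = φ 1 ^ 2 * (φ x * φ (colm v)) := by
        rw [hZ, mul_assoc, ← c1 (colm v), ← mul_assoc, mul_assoc (φ 1) (φ x) (φ 1), ← c1 x]
        simp only [pow_succ, pow_zero, one_mul, mul_assoc]
      have hcp : ∀ y k, φ 1 ^ k * φ y = φ y * φ 1 ^ k := fun y k => (Commute.pow_left (c1 y) k)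
      rw [hZ', star_mul, star_pow, hst1, star_mul, ← h.st, ← h.st]
      have : φ (star (colm v)) * φ (star x) * φ 1 ^ 2 * (φ 1 ^ 2 * (φ x * φ (colm v))) =
          φ 1 ^ 4 * (φ (star (colm v)) * φ (star x) * (φ x * φ (colm v))) := by
        rw [mul_assoc (φ (star (colm v)) * φ (star x)), ← mul_assoc (φ 1 ^ 2) (φ 1 ^ 2), ← pow_add,
          ← mul_assoc (φ (star (colm v)) * φ (star x)), mul_assoc (φ (star (colm v))), ← hcp,
          ← mul_assoc (φ (star (colm v))), ← hcp]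
        simp only [mul_assoc]
      exact this
    have e5 : φ (mu 0 0) ^ 2 ^ 3 = φ 1 ^ 7 * φ (mu 0 0) := pow_proj h (mu_mul 0 0 0) 7
    rw [e4, e2, e5, mul_smul_comm, mul_smul_comm, ← mul_assoc, ← pow_add]
  have hsa : IsSelfAdjoint (φ (mu 0 0)) := by
    rw [IsSelfAdjoint, ← h.st, star_mu]
  have h1 : ‖Z‖ * ‖Z‖ = s * ‖φ (mu 0 0)‖ ^ 8 := by
    rw [← CStarRing.norm_star_mul_self, e1, norm_smul, Complex.norm_real, Real.norm_of_nonneg hs0,
      hsa.norm_pow_two_pow 3]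
    norm_num
  have h2 : ‖Z‖ = Real.sqrt s * ‖φ (mu 0 0)‖ ^ 4 := by
    have h3 : ‖Z‖ * ‖Z‖ = (Real.sqrt s * ‖φ (mu 0 0)‖ ^ 4) * (Real.sqrt s * ‖φ (mu 0 0)‖ ^ 4) := by
      have h4 := Real.mul_self_sqrt hs0
      have h5 : (Real.sqrt s * ‖φ (mu 0 0)‖ ^ 4) * (Real.sqrt s * ‖φ (mu 0 0)‖ ^ 4) =
          (Real.sqrt s * Real.sqrt s) * ‖φ (mu 0 0)‖ ^ 8 := by ring
      rw [h1, h5, h4]
    exact (mul_self_inj (norm_nonneg _) (by positivity)).1 h3
  rw [← h2, hZ]
  calc ‖φ 1 * φ x * φ (colm v) * φ 1‖ ≤ ‖φ 1 * φ x‖ * ‖φ (colm v)‖ * ‖φ 1‖ :=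
        (norm_mul_le _ _).trans (mul_le_mul_of_nonneg_right (norm_mul_le _ _) (norm_nonneg _))
    _ ≤ ‖φ 1 * φ x‖ * 1 * 1 := by
        gcongr
        exact (h.norm _).trans hY
    _ = _ := by ring

theorem t_NB : S_NB := by
  intro n B _ φ h x
  have hle : ‖φ 1‖ ^ 4 ≤ ‖φ (mu 0 0)‖ ^ 4 := pow_le_pow_left₀ (norm_nonneg _) (one_le_diag h) 4
  refine (mul_le_mul_of_nonneg_left hle (norm_nonneg _)).trans ?_
  have key : ∀ r : ℝ, 0 ≤ r → r < ‖x‖ → r * ‖φ (mu 0 0)‖ ^ 4 ≤ ‖φ 1 * φ x‖ := by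
    intro r hr hrx
    rw [Matrix.cstar_norm_def] at hrx
    obtain ⟨v, hv1, hv2⟩ := ContinuousLinearMap.exists_lt_apply_of_lt_opNorm _ hrx
    have h1 := nb_aux h x v.ofLp (by
      have h2 := EuclideanSpace.norm_sq_eq v
      have h3 : ‖v‖ ^ 2 ≤ 1 := by
        have := norm_nonneg v
        nlinarith
      rw [h2] at h3
      exact h3)
    refine le_trans ?_ h1
    apply mul_le_mul_of_nonneg_right _ (by positivity)
    refine hv2.le.trans (le_of_eq ?_)
    rw [EuclideanSpace.norm_eq]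
    rfl
  rcases (norm_nonneg x).eq_or_lt with h0 | h0
  · rw [← h0, zero_mul]
    exact norm_nonneg _
  · have h2 : Tendsto (fun k : ℕ => (‖x‖ * (1 - 1 / ((k : ℝ) + 1))) * ‖φ (mu 0 0)‖ ^ 4) atTop
        (𝓝 ((‖x‖ * (1 - 0)) * ‖φ (mu 0 0)‖ ^ 4)) :=
      ((tendsto_const_nhds.sub tendsto_one_div_add_atTop_nhds_zero_nat).const_mul _).mul_const _
    rw [sub_zero, mul_one] at h2
    refine le_of_tendsto h2 (Eventually.of_forall fun k => ?_)
    have hk : 0 < 1 / ((k : ℝ) + 1) := by positivity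
    have hk1 : 1 / ((k : ℝ) + 1) ≤ 1 := by
      rw [div_le_one (by positivity)]
      have : (0 : ℝ) ≤ k := Nat.cast_nonneg k
      linarith
    apply key
    · exact mul_nonneg h0.le (by linarith)
    · nlinarith

end Pool.Agent.N866.ND
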